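import Pool.Agent.K3h22.E8.Main8
import Pool.Agent.K3h53.UG.Fin11

/-! E8 project (helper22): varieties of dimension at least `n`. -/

set_option autoImplicit false

namespace Pool.Agent.K3h22.E8

open MvPolynomial Set Pool.Agent.K3h22.EX Pool.Agent.K3h53.UG

/-- exponential points on all translates, dimension at least `n` -/
theorem geLin8 (hCORE : S_CORE8) (hALG : S_ALG8) (hSUPP : S_SUPP8) (hTRD : S_TRD8)
    (hCOR : S_COR8) (hLIN : S_LIN8)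
    (hSEP : Pool.Agent.K3h22.EX.S_SEP) (hFLAG : S_FLAG) (hCONE1 : S_CONE1) (hCONE2 : S_CONE2)
    {n s r : ℕ} (hn : n = s + r) (hs : 1 ≤ s)
    (P : Ideal (MvPolynomial (Fin n ⊕ Fin n) ℂ)) (V : Set (Fin n ⊕ Fin n → ℂ)) (hP : P.IsPrime)
    (hV : V = {p | (∀ f ∈ P, eval p f = 0) ∧ ∀ j : Fin n, p (Sum.inr j) ≠ 0})
    (hne : V.Nonempty)
    (hX1 : ∃ K : Finset (Fin n), K.card = s ∧ ∀ G : MvPolynomial (Fin n) ℂ, G.vars ⊆ K →
      (∀ u ∈ V, eval (fun i => u (Sum.inl i)) G = 0) → G = 0)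
    (hX2 : ∀ K : Finset (Fin n), K.card = s + 1 → ¬ ∀ G : MvPolynomial (Fin n) ℂ, G.vars ⊆ K →
      (∀ u ∈ V, eval (fun i => u (Sum.inl i)) G = 0) → G = 0)
    (hd : ∃ K : Finset (Fin n ⊕ Fin n), K.card = n ∧ Indep V K)
    (F : Fin r → MvPolynomial (Fin n) ℂ) (g : MvPolynomial (Fin n) ℂ)
    (hIF : ∀ x : Fin n → ℂ, (∀ i, eval x (F i) = 0) → eval x g ≠ 0 →
      ∀ G : MvPolynomial (Fin n) ℂ, (∀ u ∈ V, eval (fun i => u (Sum.inl i)) G = 0) →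
        eval x G = 0)
    (L : Submodule ℂ (Fin n → ℂ)) (hL : Module.finrank ℂ L = s)
    (hre : ∀ c : Fin n → ℝ, c ≠ 0 → Module.finrank ℚ (Submodule.span ℚ (Set.range c)) ≤ 2 * s →
      ∃ v ∈ L, ∑ i, (c i : ℂ) * v i ≠ 0)
    (hco : ∀ c : Fin n → ℂ, c ≠ 0 → Module.finrank ℚ (Submodule.span ℚ (Set.range c)) ≤ s →
      ∃ v ∈ L, ∑ i, c i * v i ≠ 0)
    (hF : ∀ i, ∀ z ∈ L, eval z (top (F i)) = 0)
    (hgr : ∃ z ∈ L, LinearIndependent ℂ fun i j => eval z (pderiv j (top (F i))))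
    (hg : ∃ z ∈ L, eval z (top g) ≠ 0)
    (c : Fin n ⊕ Fin n → ℂ) (hc : ∀ i, c (Sum.inr i) ≠ 0)
    (H : MvPolynomial (Fin n ⊕ Fin n) ℂ)
    (hHV : ∃ u ∈ V, eval (Sum.elim (fun i => u (Sum.inl i) + c (Sum.inl i))
      (fun i => c (Sum.inr i) * u (Sum.inr i))) H ≠ 0) :
    ∃ z : Fin n → ℂ, (∃ u ∈ V, (Sum.elim z fun i => Complex.exp (z i) :
      Fin n ⊕ Fin n → ℂ) = Sum.elim (fun i => u (Sum.inl i) + c (Sum.inl i))
        (fun i => c (Sum.inr i) * u (Sum.inr i))) ∧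
      eval (Sum.elim z fun i => Complex.exp (z i)) H ≠ 0 := by
  classical
  rcases Nat.eq_zero_or_pos r with hr | hr
  · subst hr
    refine geLin hn P V hP hV hne hX1 hX2 hd F g hIF L hL (fun c hc => hre c hc ?_)
      (fun S hS v hv => funext fun b => b.elim0) hF hgr hg c hc H hHV
    have h1 : Module.finrank ℚ (Submodule.span ℚ (Set.range c)) ≤ n := by
      have := finrank_range_le_card (R := ℚ) c
      rwa [Fintype.card_fin] at this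
    omega
  obtain ⟨H', hH'⟩ := pullback c H
  obtain ⟨u, hu, huH⟩ := hHV
  rw [← hH'] at huH
  obtain ⟨L', T, hL', hLT, hTc, hT⟩ := exists_T hn P V hP hV hne hX2 hX1 hd
  obtain ⟨P', V', h1, h2, h3, ⟨v, hv, hvH⟩, h5, h6, h7⟩ := reduceT hn P V hP hV hne hX2 L' hL' T
    hLT hTc hT H' ⟨u, hu, huH⟩
  obtain ⟨K₁, hK₁, hK₂⟩ := hX1
  obtain ⟨z, ⟨u', hu', hz⟩, hzH⟩ := mainV8 hCORE hALG hSUPP hTRD hCOR hLIN hSEP hFLAG hCONE1
    hCONE2 hn hs hr P' V' h1 h2 ⟨v, hv⟩ ⟨_, hTc, h5⟩ h6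
    ⟨K₁, hK₁, fun G hG hGV => hK₂ G hG ((h7 G).1 hGV)⟩
    (fun K hK hcon => hX2 K hK fun G hG hGV => hcon G hG ((h7 G).2 hGV)) F g
    (fun x hx hxg G hG => hIF x hx hxg G ((h7 G).1 hG)) L hL hre hco hF hgr hg c hc H
    ⟨v, hv, by rw [← hH']; exact hvH⟩
  exact ⟨z, ⟨u', h3 hu', hz⟩, hzH⟩

end Pool.Agent.K3h22.E8
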