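import Pool.Agent.K3h22.E8.Stm8
import Pool.Agent.K3h53.UG.Fin8
import Pool.Agent.K3h22.EX.TI

/-! E8 project (helper22): the relations and the conclusion for one transcendence basis. -/

set_option autoImplicit false

namespace Pool.Agent.K3h22.E8

open MvPolynomial Filter Topology Metric Set Pool.Agent.K3h22.EX Pool.Agent.K3h53.UG

open scoped Classical in
/-- the possible slopes, rational version -/
noncomputable def EslQ {A : Type} [CommRing A] {r : ℕ} (g : Polynomial A)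
    (sp : A → Finset (Fin r →₀ ℕ)) : Finset (Fin r → ℚ) :=
  (g.support ×ˢ g.support).biUnion fun kl =>
    (sp (g.coeff kl.1) ×ˢ sp (g.coeff kl.2)).image fun mm =>
      fun b => ((mm.1 b : ℚ) - mm.2 b) / ((kl.2 : ℚ) - kl.1)

theorem mem_Esl6 {A : Type} [CommRing A] {r : ℕ} {g : Polynomial A}
    {sp : A → Finset (Fin r →₀ ℕ)} {x : Fin r → ℝ} (hx : x ∈ Esl6 g sp) :
    ∃ q ∈ EslQ g sp, (fun b => ((q b : ℚ) : ℝ)) = x := by
  classical
  unfold Esl6 at hx
  rw [Finset.mem_biUnion] at hx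
  obtain ⟨kl, hkl, hx⟩ := hx
  obtain ⟨mm, hmm, rfl⟩ := Finset.mem_image.1 hx
  refine ⟨fun b => ((mm.1 b : ℚ) - mm.2 b) / ((kl.2 : ℚ) - kl.1), ?_, ?_⟩
  · unfold EslQ
    rw [Finset.mem_biUnion]
    exact ⟨kl, hkl, Finset.mem_image.2 ⟨mm, hmm, rfl⟩⟩
  · funext b
    push_cast
    rfl

theorem cast_mem {A : Type} [CommRing A] {r : ℕ} (g : Polynomial A)
    (sp : A → Finset (Fin r →₀ ℕ)) (j k : ℕ) (hj : j ∈ g.support) (hk : k ∈ g.support)
    (x y : Fin r →₀ ℕ) (hx : x ∈ sp (g.coeff j)) (hy : y ∈ sp (g.coeff k)) :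
    (fun b => ((((x b : ℚ) - y b) / ((k : ℚ) - j) : ℚ) : ℝ)) ∈ Esl6 g sp := by
  classical
  unfold Esl6
  rw [Finset.mem_biUnion]
  refine ⟨(j, k), Finset.mem_product.2 ⟨hj, hk⟩, Finset.mem_image.2 ⟨(x, y),
    Finset.mem_product.2 ⟨hx, hy⟩, ?_⟩⟩
  funext b
  push_cast
  rfl

theorem exists_weights (hSEP : Pool.Agent.K3h22.EX.S_SEP) {A : Type} [CommRing A] {s r : ℕ} (g : Fin s → Polynomial A)
    (sp : A → Finset (Fin r →₀ ℕ)) : ∃ m : Fin s → ℕ, (∀ j, 0 < m j) ∧
    ∀ x y : Fin s → Fin r → ℝ, (∀ j, x j ∈ Esl6 (g j) sp) → (∀ j, y j ∈ Esl6 (g j) sp) →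
      (∀ b, ∑ j, (m j : ℝ) * x j b = ∑ j, (m j : ℝ) * y j b) → x = y := by
  obtain ⟨m, hm0, hm⟩ := hSEP s (Fin r) (fun j => EslQ (g j) sp)
  refine ⟨m, hm0, fun x y hx hy hxy => ?_⟩
  choose x' hx' ex using fun j => mem_Esl6 (hx j)
  choose y' hy' ey using fun j => mem_Esl6 (hy j)
  have h1 : x' = y' := by
    refine hm x' y' hx' hy' fun b => ?_
    have h2 := hxy b
    simp only [← ex, ← ey] at h2
    exact_mod_cast h2
  funext j
  rw [← ex, ← ey, h1]

section Em

variable {n : ℕ} (P : Ideal (MvPolynomial (Fin n ⊕ Fin n) ℂ)) (I : Ideal (MvPolynomial (Fin n) ℂ))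
  (hmemI : ∀ G, G ∈ I ↔ rename Sum.inl G ∈ P)

/-- the coordinate ring of the base in the coordinate ring of the variety -/
noncomputable def emI8 : RI I →ₐ[ℂ] MvPolynomial (Fin n ⊕ Fin n) ℂ ⧸ P :=
  Ideal.Quotient.liftₐ I ((Ideal.Quotient.mkₐ ℂ P).comp
    (rename (Sum.inl : Fin n → Fin n ⊕ Fin n))) (by
      intro a ha
      show Ideal.Quotient.mk P (rename Sum.inl a) = 0
      rw [Ideal.Quotient.eq_zero_iff_mem]
      exact (hmemI a).1 ha)

theorem emI8_mk (G : MvPolynomial (Fin n) ℂ) :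
    emI8 P I hmemI (Ideal.Quotient.mk I G) = Ideal.Quotient.mk P (rename Sum.inl G) := rfl

theorem emI8_inj : Function.Injective (emI8 P I hmemI) := by
  rw [injective_iff_map_eq_zero]
  intro a ha
  obtain ⟨G, rfl⟩ := Ideal.Quotient.mk_surjective a
  rw [emI8_mk, Ideal.Quotient.eq_zero_iff_mem] at ha
  rw [Ideal.Quotient.eq_zero_iff_mem]
  exact (hmemI G).2 ha

/-- polynomials in `y_{κ b}` over the coordinate ring of the base -/
noncomputable def em8 {β : Type} (κ : β → Fin n) :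
    MvPolynomial β (RI I) →ₐ[ℂ] MvPolynomial (Fin n ⊕ Fin n) ℂ ⧸ P :=
  aevalTower (emI8 P I hmemI) (fun b => Ideal.Quotient.mk P (X (Sum.inr (κ b))))

theorem em8_rename {β : Type} (κ : β → Fin n) :
    (em8 P I hmemI (id : Fin n → Fin n) :
      MvPolynomial (Fin n) (RI I) →+* MvPolynomial (Fin n ⊕ Fin n) ℂ ⧸ P).comp
      (rename (R := RI I) κ).toRingHom =
        (em8 P I hmemI κ : MvPolynomial β (RI I) →+* MvPolynomial (Fin n ⊕ Fin n) ℂ ⧸ P) := by
  apply MvPolynomial.ringHom_ext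
  · intro a
    simp [em8]
  · intro b
    simp [em8]

theorem em8_eval₂ {β : Type} (κ : β → Fin n) (g : Polynomial (MvPolynomial β (RI I)))
    (x : MvPolynomial (Fin n) (RI I)) :
    em8 P I hmemI id (g.eval₂ (rename (R := RI I) κ).toRingHom x) =
      g.eval₂ (em8 P I hmemI κ : MvPolynomial β (RI I) →+* MvPolynomial (Fin n ⊕ Fin n) ℂ ⧸ P)
        (em8 P I hmemI id x) := by
  rw [← em8_rename]
  exact Polynomial.hom_eval₂ g _ (em8 P I hmemI (id : Fin n → Fin n) :
    MvPolynomial (Fin n) (RI I) →+* MvPolynomial (Fin n ⊕ Fin n) ℂ ⧸ P) x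

theorem em8_map {r : ℕ} (κ : Fin r → Fin n) (g : MvPolynomial (Fin r) (MvPolynomial (Fin n) ℂ)) :
    em8 P I hmemI κ (MvPolynomial.map (Ideal.Quotient.mk I) g) =
      Ideal.Quotient.mk P (yev κ g) := by
  have h : (em8 P I hmemI κ : MvPolynomial (Fin r) (RI I) →+* MvPolynomial (Fin n ⊕ Fin n) ℂ ⧸ P).comp
      (MvPolynomial.map (Ideal.Quotient.mk I)) = (Ideal.Quotient.mk P).comp (yev κ) := by
    refine MvPolynomial.ringHom_ext (fun a => ?_) fun b => ?_
    · show em8 P I hmemI κ (MvPolynomial.map (Ideal.Quotient.mk I) (C a)) =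
        Ideal.Quotient.mk P (yev κ (C a))
      rw [MvPolynomial.map_C, em8, aevalTower_C, emI8_mk, yev, coe_eval₂Hom, eval₂_C]
      rfl
    · show em8 P I hmemI κ (MvPolynomial.map (Ideal.Quotient.mk I) (X b)) =
        Ideal.Quotient.mk P (yev κ (X b))
      rw [MvPolynomial.map_X, em8, aevalTower_X, yev, coe_eval₂Hom, eval₂_X]
  exact RingHom.congr_fun h g

theorem indepOver_of_inj {r : ℕ} (κ : Fin r → Fin n)
    (hinj : Function.Injective (em8 P I hmemI κ)) : IndepOver P κ := by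
  intro g hg m
  rw [← hmemI, ← Ideal.Quotient.eq_zero_iff_mem, ← MvPolynomial.coeff_map]
  have h1 : MvPolynomial.map (Ideal.Quotient.mk I) g = 0 := by
    apply hinj
    rw [em8_map, map_zero, Ideal.Quotient.eq_zero_iff_mem]
    exact hg
  rw [h1, MvPolynomial.coeff_zero]

theorem inj_of_indepOver {r : ℕ} (κ : Fin r → Fin n) (hind : IndepOver P κ) :
    Function.Injective (em8 P I hmemI κ) := by
  rw [injective_iff_map_eq_zero]
  intro g hg
  obtain ⟨g', rfl⟩ := MvPolynomial.map_surjective (Ideal.Quotient.mk I)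
    Ideal.Quotient.mk_surjective g
  rw [em8_map, Ideal.Quotient.eq_zero_iff_mem] at hg
  ext m
  rw [MvPolynomial.coeff_map, MvPolynomial.coeff_zero, Ideal.Quotient.eq_zero_iff_mem]
  exact (hmemI _).2 (hind g' hg m)

theorem alg_map {r : ℕ} (κ : Fin r → Fin n) (i : Fin n)
    (h : ∃ g : Polynomial (MvPolynomial (Fin r) (MvPolynomial (Fin n) ℂ)),
      (∃ a m, rename Sum.inl (coeff m (g.coeff a)) ∉ P) ∧
      g.eval₂ (yev κ) (X (Sum.inr i)) ∈ P) :
    ∃ g : Polynomial (MvPolynomial (Fin r) (RI I)), g ≠ 0 ∧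
      g.eval₂ (em8 P I hmemI κ : MvPolynomial (Fin r) (RI I) →+* MvPolynomial (Fin n ⊕ Fin n) ℂ ⧸ P)
        (Ideal.Quotient.mk P (X (Sum.inr i))) = 0 := by
  obtain ⟨g, ⟨a, m, ham⟩, hg⟩ := h
  refine ⟨g.map (MvPolynomial.map (Ideal.Quotient.mk I)), ?_, ?_⟩
  · intro h0
    apply ham
    have h1 := congrArg (fun q => coeff m (q.coeff a)) h0
    simp only [Polynomial.coeff_map, Polynomial.coeff_zero, MvPolynomial.coeff_map,
      MvPolynomial.coeff_zero] at h1
    rw [Ideal.Quotient.eq_zero_iff_mem] at h1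
    exact (hmemI _).1 h1
  · have h : (em8 P I hmemI κ : MvPolynomial (Fin r) (RI I) →+* MvPolynomial (Fin n ⊕ Fin n) ℂ ⧸ P).comp
        (MvPolynomial.map (Ideal.Quotient.mk I)) = (Ideal.Quotient.mk P).comp (yev κ) :=
      RingHom.ext fun g => em8_map P I hmemI κ g
    rw [Polynomial.eval₂_map, h, ← Polynomial.hom_eval₂, Ideal.Quotient.eq_zero_iff_mem]
    exact hg

end Em

/-- the relations for one set of coordinates, and the conclusion -/
theorem local8 (hCORE : S_CORE8) (hALG : S_ALG8) (hSUPP : S_SUPP8) (hSEP : Pool.Agent.K3h22.EX.S_SEP) {n s r : ℕ}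
    (hs : 1 ≤ s) (P : Ideal (MvPolynomial (Fin n ⊕ Fin n) ℂ)) (hP : P.IsPrime)
    (h3 : ∀ i, X (Sum.inr i) ∉ P) (e : Fin s ⊕ Fin r ≃ Fin n)
    (Zp : Set (Fin n → ℂ)) (I : Ideal (MvPolynomial (Fin n) ℂ))
    (hmemI : ∀ G, G ∈ I ↔ rename Sum.inl G ∈ P) (hIF' : ∀ x ∈ Zp, ∀ G ∈ I, eval x G = 0)
    (halg : IndepOver P (fun b => e (Sum.inr b)) → ∀ i,
      ∃ g : Polynomial (MvPolynomial (Fin r) (MvPolynomial (Fin n) ℂ)),
      (∃ a m, rename Sum.inl (coeff m (g.coeff a)) ∉ P) ∧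
      g.eval₂ (yev fun b => e (Sum.inr b)) (X (Sum.inr i)) ∈ P)
    (c : Fin n → ℂ) (H : MvPolynomial (Fin n ⊕ Fin n) ℂ) (hHP : H ∉ P) :
    ∃ p : Option (Fin s) → MvPolynomial (Fin n) (RI I),
      (∀ o, p o ≠ 0 ∧ em8 P I hmemI id (p o) = 0) ∧
      ∀ w : Fin n → ℝ, (∀ m : Fin r → ℤ, m ≠ 0 → ∑ b, (m b : ℝ) * w (e (Sum.inr b)) ≠ 0) →
        (∀ o, Twice (p o).support w) →
        (∀ σ : Fin s → Fin r → ℚ, (∀ j, w (e (Sum.inl j)) =
          ∑ b, (σ j b : ℝ) * w (e (Sum.inr b))) → GeoL e Zp I (fun b => w (e (Sum.inr b))) σ) →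
        ∃ x : Fin n → ℂ,
          (∀ G ∈ P, eval (Sum.elim x fun i => Complex.exp (x i + c i)) G = 0) ∧
          eval (Sum.elim x fun i => Complex.exp (x i + c i)) H ≠ 0 := by
  classical
  have := hP
  have hI : I.IsPrime := by
    have hIdef : I = P.comap ((rename (Sum.inl : Fin n → Fin n ⊕ Fin n) :
        MvPolynomial (Fin n) ℂ →ₐ[ℂ] MvPolynomial (Fin n ⊕ Fin n) ℂ) :
        MvPolynomial (Fin n) ℂ →+* MvPolynomial (Fin n ⊕ Fin n) ℂ) := by
      ext G
      rw [hmemI]
      rfl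
    rw [hIdef]
    exact Ideal.comap_isPrime _ _
  set κ : Fin r → Fin n := fun b => e (Sum.inr b) with hκ
  have hκi : Function.Injective κ := fun a b hab => Sum.inr_injective (e.injective hab)
  have hlr : ∀ j b, e (Sum.inl j) ≠ κ b := by
    intro j b h
    have := e.injective h
    cases this
  by_cases hinj : Function.Injective (em8 P I hmemI κ)
  · obtain ⟨f, U, W, D, Δ, g0, N, g, hf, hf0, hD, hΔ, hg0, hUW, hgc, hgP, hres, hM⟩ :=
      hALG n P hP (MvPolynomial (Fin r) (RI I)) (em8 P I hmemI κ) hinj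
        (fun i => C (Ideal.Quotient.mk I (X i)))
        (fun i => by
          rw [em8, aevalTower_C, emI8_mk, rename_X]) h3
        (fun i => alg_map P I hmemI κ i (halg (indepOver_of_inj P I hmemI κ hinj) i)) H hHP
    obtain ⟨m, hm0, hm⟩ := exists_weights hSEP (fun j : Fin s => g (e (Sum.inl j)))
      (famZ r Zp I hIF').sp
    obtain ⟨qq, hqq0, hqqP, hqq⟩ := hres s (fun j => e (Sum.inl j)) m
    set μg : Fin s → (Fin n →₀ ℕ) := fun a => Finsupp.single (e (Sum.inl a)) 1 with hμg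
    set μq : Fin n →₀ ℕ := ∑ a, Finsupp.single (e (Sum.inl a)) (m a) with hμq
    have hg1 : ∀ a, (∀ b, μg a (κ b) = 0) ∧ μg a ≠ 0 := by
      intro a
      refine ⟨fun b => ?_, fun h => ?_⟩
      · simp [hμg, Finsupp.single_apply, hlr a b]
      · have := DFunLike.congr_fun h (e (Sum.inl a))
        simp [hμg] at this
    have hq1 : (∀ b, μq (κ b) = 0) ∧ μq ≠ 0 := by
      refine ⟨fun b => ?_, fun h => ?_⟩
      · rw [hμq, Finsupp.finsetSum_apply]
        refine Finset.sum_eq_zero fun a _ => ?_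
        simp [Finsupp.single_apply, hlr a b]
      · have h1 := DFunLike.congr_fun h (e (Sum.inl ⟨0, hs⟩))
        rw [hμq, Finsupp.finsetSum_apply, Finset.sum_eq_single (⟨0, hs⟩ : Fin s)] at h1
        · have h2 := hm0 ⟨0, hs⟩
          simp at h1
          omega
        · intro a _ ha
          have : e (Sum.inl a) ≠ e (Sum.inl ⟨0, hs⟩) := fun h =>
            ha (Sum.inl_injective (e.injective h))
          simp [Finsupp.single_apply, this]
        · intro h
          exact absurd (Finset.mem_univ _) h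
    have hgne : ∀ i, g i ≠ 0 := by
      intro i h0
      apply hgc i
      rw [h0, Polynomial.coeff_zero]
    refine ⟨fun o => match o with
      | some a => (g (e (Sum.inl a))).eval₂ (rename (R := RI I) κ).toRingHom
          (monomial (μg a) 1)
      | none => qq.eval₂ (rename (R := RI I) κ).toRingHom (monomial μq 1), ?_, ?_⟩
    · rintro (_ | a)
      · refine ⟨((hSUPP (RI I) n r κ hκi).1 qq μq hq1.1 hq1.2 hqq0).1, ?_⟩
        simp only
        rw [em8_eval₂]
        have h1 : em8 P I hmemI (id : Fin n → Fin n) (monomial μq 1) =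
            ∏ a, Ideal.Quotient.mk P (X (Sum.inr (e (Sum.inl a)))) ^ m a := by
          rw [hμq, monomial_sum_one, map_prod]
          refine Finset.prod_congr rfl fun a _ => ?_
          rw [← X_pow_eq_monomial, map_pow, em8, aevalTower_X]
          rfl
        rw [h1]
        exact hqqP
      · refine ⟨((hSUPP (RI I) n r κ hκi).1 (g (e (Sum.inl a))) (μg a) (hg1 a).1 (hg1 a).2
          (hgne _)).1, ?_⟩
        simp only
        rw [em8_eval₂]
        have h1 : em8 P I hmemI (id : Fin n → Fin n) (monomial (μg a) 1) =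
            Ideal.Quotient.mk P (X (Sum.inr (e (Sum.inl a)))) := by
          change em8 P I hmemI (id : Fin n → Fin n) (X (e (Sum.inl a))) = _
          rw [em8, aevalTower_X]
          rfl
        rw [h1]
        exact hgP _
    · intro w hw htw hgeo
      have hr : ∀ a : Fin s, ∃ ra : Fin r → ℚ,
          (fun b => ((ra b : ℚ) : ℝ)) ∈ Esl6 (g (e (Sum.inl a))) (famZ r Zp I hIF').sp ∧
          w (e (Sum.inl a)) = ∑ b, (ra b : ℝ) * w (e (Sum.inr b)) := by
        intro a
        obtain ⟨j, hj, k, hk, hjk, x, hx, y, hy, hxy, -⟩ :=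
          ((hSUPP (RI I) n r κ hκi).1 (g (e (Sum.inl a))) (μg a) (hg1 a).1 (hg1 a).2
            (hgne _)).2 w hw (htw (some a))
        refine ⟨_, cast_mem _ _ j k hj hk x y hx hy, ?_⟩
        have h1 : pr (μg a) w = w (e (Sum.inl a)) := by
          rw [hμg, pr_single]
          simp
        rw [h1] at hxy
        have h2 : (0 : ℝ) < (k : ℝ) - j := by
          rw [sub_pos]
          exact_mod_cast hjk
        have h3 : ∑ b : Fin r, ((((x b : ℚ) - y b) / ((k : ℚ) - j) : ℚ) : ℝ) *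
            w (e (Sum.inr b)) = (∑ b, (x b : ℝ) * w (κ b) - ∑ b, (y b : ℝ) * w (κ b)) /
              ((k : ℝ) - j) := by
          rw [← Finset.sum_sub_distrib, Finset.sum_div]
          refine Finset.sum_congr rfl fun b _ => ?_
          push_cast
          simp only [hκ]
          ring
        rw [h3, eq_div_iff h2.ne']
        linarith
      choose σ hσE hσw using hr
      have hnp := ((hSUPP (RI I) n r κ hκi).1 qq μq hq1.1 hq1.2 hqq0).2 w hw (htw none)
      have hprq : pr μq w = ∑ b : Fin r, (∑ a, (m a : ℝ) * σ a b) * w (e (Sum.inr b)) := by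
        rw [hμq, pr_sum]
        simp only [pr_single, hσw, Finset.mul_sum, Finset.sum_mul]
        rw [Finset.sum_comm]
        exact Finset.sum_congr rfl fun b _ => Finset.sum_congr rfl fun a _ => by ring
      rw [hprq] at hnp
      have hrel : ∀ (x : Zp) (Y : Fin r → ℂ) (t : ℂ), (famZ r Zp I hIF').ch x Y D ≠ 0 → ∀ i,
          evAZ r Zp I hIF' x Y D * yq ((famZ r Zp I hIF').ch x Y) (N i) D t =
            ((N i).map ((evAZ r Zp I hIF' x Y : MvPolynomial (Fin r) (RI I) →ₐ[ℂ] ℂ) :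
              MvPolynomial (Fin r) (RI I) →+* ℂ)).eval t := by
        intro x Y t hD' i
        rw [yq]
        exact mul_div_cancel₀ _ hD'
      obtain ⟨x, Y, t, hY, h6, h7, h8, h9⟩ := hCORE n s r e Zp I
        (fun b => w (e (Sum.inr b))) hw σ (hgeo σ hσw) (MvPolynomial (Fin r) (RI I))
        (famZ r Zp I hIF') c f U W D Δ g0 (fun j => N (e (Sum.inl j)))
        (fun j => g (e (Sum.inl j))) hf hf0 hUW hD hΔ hg0 (fun j => hgc _) (by
          intro j x Y t ht hD'
          exact (hM (evAZ r Zp I hIF' x Y) t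
            (fun i => yq ((famZ r Zp I hIF').ch x Y) (N i) D t)
            (hrel x Y t hD') hD' ht).2.1 (e (Sum.inl j))) m hm hσE qq
        (fun x Y t hD' ht => hqq _ hD' t ht) hnp
      obtain ⟨m1, -, m3, m4⟩ := hM (evAZ r Zp I hIF' x Y) t
        (fun i => yq ((famZ r Zp I hIF').ch x Y) (N i) D t) (hrel x _ t h7) h7 h8
      have hxA : (fun i => evAZ r Zp I hIF' x Y (C (Ideal.Quotient.mk I (X i)))) = x.1 := by
        funext i
        rw [evAZ, aevalTower_C, evZ_mk, eval_X]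
      have hYA : (fun i => yq ((famZ r Zp I hIF').ch x Y) (N i) D t) =
          fun i => Complex.exp (x.1 i + c i) := by
        funext i
        obtain ⟨j | b, rfl⟩ := e.surjective i
        · exact h9 j
        · have := m3 (e (Sum.inr b)) (X b) (by rw [em8, aevalTower_X])
          rw [this, evAZ, aevalTower_X]
          exact hY b
      rw [hxA, hYA] at m1 m4
      exact ⟨x.1, m1, m4 h6⟩
  · obtain ⟨G, hGP, hG⟩ : ∃ G, em8 P I hmemI κ G = 0 ∧ G ≠ 0 := by
      rw [injective_iff_map_eq_zero] at hinj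
      push Not at hinj
      exact hinj
    refine ⟨fun _ => rename κ G, fun _ => ⟨?_, ?_⟩, fun w hw htw => ?_⟩
    · exact (map_ne_zero_iff _ (rename_injective _ hκi)).2 hG
    · have h1 := RingHom.congr_fun (em8_rename P I hmemI κ) G
      exact h1.trans hGP
    · exact absurd (htw none) ((hSUPP (RI I) n r κ hκi).2 G w hw)

end Pool.Agent.K3h22.E8
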