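import Pool.Agent.K3h22.E8.Loc
import Pool.Agent.K3h22.EX.TH
import Pool.Agent.K3h53.UG.Fin9

/-! E8 project (helper22): the direction, and the theorem for the ideal and for the variety. -/

set_option autoImplicit false

namespace Pool.Agent.K3h22.E8

open MvPolynomial Filter Topology Metric Set Pool.Agent.K3h22.EX Pool.Agent.K3h53.UG

/-- the geometry near a point of the linear space at infinity -/
theorem geoL_of (hCOR : S_COR8) {n s r : ℕ} (e : Fin s ⊕ Fin r ≃ Fin n)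
    (F : Fin r → MvPolynomial (Fin n) ℂ) (g : MvPolynomial (Fin n) ℂ)
    (L : Submodule ℂ (Fin n → ℂ)) (hL : Module.finrank ℂ L = s) (σ : Fin s → Fin r → ℚ)
    (hΨ : ∀ z ∈ L, (∀ j, z (e (Sum.inl j)) = ∑ b, (σ j b : ℂ) * z (e (Sum.inr b))) → z = 0)
    (hF : ∀ i, ∀ z ∈ L, eval z (top (F i)) = 0)
    (hgr : ∃ z ∈ L, LinearIndependent ℂ fun i j => eval z (pderiv j (top (F i))))
    (hg : ∃ z ∈ L, eval z (top g) ≠ 0)
    (I : Ideal (MvPolynomial (Fin n) ℂ)) (hI : I.IsPrime)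
    (hId : ∀ K : Finset (Fin n), K.card = s + 1 → ∃ G ∈ I, G ≠ 0 ∧ G.vars ⊆ K)
    (hIF : ∀ x : Fin n → ℂ, (∀ i, eval x (F i) = 0) → eval x g ≠ 0 → ∀ G ∈ I, eval x G = 0)
    (ξ : Fin n → ℂ) (hξ : ξ ∈ L)
    (hre : ∀ j, (ξ (e (Sum.inl j))).re = ∑ b, (σ j b : ℝ) * (ξ (e (Sum.inr b))).re) :
    GeoL e {x : Fin n → ℂ | (∀ i, eval x (F i) = 0) ∧ eval x g ≠ 0} I
      (fun b => (ξ (e (Sum.inr b))).re) σ := by
  classical
  intro δ' hδ' T hT δ hδ
  obtain ⟨lam, θ, h4, h5, h6⟩ := hCOR n s r e (fun i => top (F i)) (top g) L hL σ hΨ hF hgr hg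
    ξ hξ hre {ρ' | ∀ b, |ρ' b - (ξ (e (Sum.inr b))).re| < δ'} (by
      have : {ρ' : Fin r → ℝ | ∀ b, |ρ' b - (ξ (e (Sum.inr b))).re| < δ'} =
          ⋂ b, {ρ' : Fin r → ℝ | |ρ' b - (ξ (e (Sum.inr b))).re| < δ'} := by
        ext ρ'
        simp
      rw [this]
      exact isOpen_iInter_of_finite fun b =>
        isOpen_lt ((continuous_apply b).sub continuous_const).abs continuous_const)
    (fun b => by rw [sub_self, abs_zero]; exact hδ')
  have e1 : (sg e (fun _ => 1) fun j b => ((σ j b : ℚ) : ℝ)) =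
      fun j b => ((σ j b : ℚ) : ℝ) := by
    funext j b
    simp [sg]
  obtain ⟨cn, ε, C, R₀, h7, h8, h9, h10, h11⟩ := Pool.Agent.K3h57.UG.t_GEO7
    Pool.Agent.K3h68.UG.t_DIR7 Pool.Agent.K3h99.UG.t_BR6 Pool.Agent.K3h72.UG.t_TOP6
    Pool.Agent.K3h90.UG.t_TOP7 Pool.Agent.K3h72.UG.t_NORM6 n s r e (fun _ => 1)
    (fun _ => le_rfl) (fun _ => rfl) F g I hI hId hIF (fun j b => ((σ j b : ℚ) : ℝ)) lam θ (by
      simp only [e1, wtop_one]
      exact h4) (by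
      rw [e1, wtop_one]
      exact h5) T hT δ hδ
  exact ⟨fun b => (θ b).re, h6, cn, ε, C, R₀, h7, h8, h9, h10, h11⟩

/-- the theorem for the ideal -/
theorem coreV8 (hCORE : S_CORE8) (hALG : S_ALG8) (hSUPP : S_SUPP8) (hTRD : S_TRD8)
    (hSEP : Pool.Agent.K3h22.EX.S_SEP) (hFLAG : S_FLAG) (hCONE1 : S_CONE1) (hCONE2 : S_CONE2)
    {n s d : ℕ} (hn : n = s + (d + 1)) (hs : 1 ≤ s)
    (P : Ideal (MvPolynomial (Fin n ⊕ Fin n) ℂ)) (hP : P.IsPrime)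
    (h3 : ∀ i, X (Sum.inr i) ∉ P)
    (Zp : Set (Fin n → ℂ)) (I : Ideal (MvPolynomial (Fin n) ℂ))
    (hmemI : ∀ G, G ∈ I ↔ rename Sum.inl G ∈ P) (hIF' : ∀ x ∈ Zp, ∀ G ∈ I, eval x G = 0)
    (hκ : ∃ κ : Fin (d + 1) → Fin n, Function.Injective κ ∧ IndepOver P κ)
    (halg : ∀ κ : Fin (d + 1) → Fin n, Function.Injective κ → IndepOver P κ → ∀ i,
      ∃ g : Polynomial (MvPolynomial (Fin (d + 1)) (MvPolynomial (Fin n) ℂ)),
      (∃ a m, rename Sum.inl (coeff m (g.coeff a)) ∉ P) ∧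
      g.eval₂ (yev κ) (X (Sum.inr i)) ∈ P)
    (Q : Submodule ℝ (Fin n → ℝ)) (N : Fin (n - 2 * s) → Fin n → ℝ) (hQ : GQ Q)
    (hN : ∀ w, (∀ i, ∑ j, N i j * w j = 0) → w ∈ Q)
    (hgeo : ∀ w ∈ Q, ∀ (e : Fin s ⊕ Fin (d + 1) ≃ Fin n) (σ : Fin s → Fin (d + 1) → ℚ),
      (∀ j, w (e (Sum.inl j)) = ∑ b, (σ j b : ℝ) * w (e (Sum.inr b))) →
      GeoL e Zp I (fun b => w (e (Sum.inr b))) σ)
    (c : Fin n → ℂ) (H : MvPolynomial (Fin n ⊕ Fin n) ℂ) (hHP : H ∉ P) :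
    ∃ x : Fin n → ℂ,
      (∀ G ∈ P, eval (Sum.elim x fun i => Complex.exp (x i + c i)) G = 0) ∧
      eval (Sum.elim x fun i => Complex.exp (x i + c i)) H ≠ 0 := by
  classical
  have := hP
  have hI : I.IsPrime := by
    have hIdef : I = P.comap ((rename (Sum.inl : Fin n → Fin n ⊕ Fin n) :
        MvPolynomial (Fin n) ℂ →ₐ[ℂ] MvPolynomial (Fin n ⊕ Fin n) ℂ) :
        MvPolynomial (Fin n) ℂ →+* MvPolynomial (Fin n ⊕ Fin n) ℂ) := by
      ext G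
      rw [hmemI]
      rfl
    rw [hIdef]
    exact Ideal.comap_isPrime _ _
  let F := FractionRing (MvPolynomial (Fin n ⊕ Fin n) ℂ ⧸ P)
  have hQF : Function.Injective (algebraMap (MvPolynomial (Fin n ⊕ Fin n) ℂ ⧸ P) F) :=
    IsFractionRing.injective _ _
  letI : Algebra (RI I) F := ((algebraMap (MvPolynomial (Fin n ⊕ Fin n) ℂ ⧸ P) F).comp
    (emI8 P I hmemI : RI I →+* MvPolynomial (Fin n ⊕ Fin n) ℂ ⧸ P)).toAlgebra
  have halgm : ∀ a : RI I, algebraMap (RI I) F a =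
      algebraMap (MvPolynomial (Fin n ⊕ Fin n) ℂ ⧸ P) F (emI8 P I hmemI a) := fun _ => rfl
  have hinjA : Function.Injective (algebraMap (RI I) F) :=
    fun a b h => emI8_inj P I hmemI (hQF h)
  let y : Fin n → F := fun i =>
    algebraMap (MvPolynomial (Fin n ⊕ Fin n) ℂ ⧸ P) F (Ideal.Quotient.mk P (X (Sum.inr i)))
  have hy : ∀ j, y j ≠ 0 := by
    intro j h
    apply h3 j
    rw [← Ideal.Quotient.eq_zero_iff_mem]
    exact hQF (h.trans (map_zero _).symm)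
  have haevr : ∀ (β : Type) (κ : β → Fin n),
      ((aeval (fun b => y (κ b)) : MvPolynomial β (RI I) →ₐ[RI I] F)).toRingHom =
      (algebraMap (MvPolynomial (Fin n ⊕ Fin n) ℂ ⧸ P) F).comp
        (em8 P I hmemI κ : MvPolynomial β (RI I) →+* MvPolynomial (Fin n ⊕ Fin n) ℂ ⧸ P) := by
    intro β κ
    apply MvPolynomial.ringHom_ext
    · intro a
      simp [em8, halgm]
    · intro b
      simp [em8, y]
  have haev : ∀ (β : Type) (κ : β → Fin n) (g : MvPolynomial β (RI I)),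
      aeval (fun b => y (κ b)) g =
        algebraMap (MvPolynomial (Fin n ⊕ Fin n) ℂ ⧸ P) F (em8 P I hmemI κ g) :=
    fun β κ g => RingHom.congr_fun (haevr β κ) g
  have haev0 : ∀ (β : Type) (κ : β → Fin n) (g : MvPolynomial β (RI I)),
      aeval (fun b => y (κ b)) g = 0 ↔ em8 P I hmemI κ g = 0 := by
    intro β κ g
    rw [haev]
    exact map_eq_zero_iff _ hQF
  obtain ⟨hB1, hB2⟩ := hTRD (RI I) F n (d + 1) y hinjA (by
      obtain ⟨κ, hκi, hκP⟩ := hκ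
      refine ⟨κ, hκi, fun g hg => ?_⟩
      rw [haev0] at hg
      exact (injective_iff_map_eq_zero _).1 (inj_of_indepOver P I hmemI κ hκP) g hg) (by
      intro κ hκi h i
      have h1 : IndepOver P κ := by
        apply indepOver_of_inj P I hmemI κ
        rw [injective_iff_map_eq_zero]
        intro g hg
        exact h g ((haev0 _ κ g).2 hg)
      obtain ⟨g, hg, hg0⟩ := alg_map P I hmemI κ i (halg κ hκi h1 i)
      refine ⟨g, hg, ?_⟩
      rw [haevr, ← Polynomial.hom_eval₂, hg0, map_zero])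
  have hloc := fun e : Fin s ⊕ Fin (d + 1) ≃ Fin n => local8 hCORE hALG hSUPP hSEP hs P hP h3 e Zp I
    hmemI hIF' (halg (fun b => e (Sum.inr b))
      (fun a b hab => Sum.inr_injective (e.injective hab))) c H hHP
  choose p hp hpw using hloc
  have hcn : n - 2 * s ≤ d := by omega
  obtain ⟨w, hwQ, htw, B, hB, hBw⟩ := cone_all hCONE1 hCONE2 n d (n - 2 * s) Q hQ N hN
    ((Fin s ⊕ Fin (d + 1) ≃ Fin n) × Option (Fin s)) (fun k => (p k.1 k.2).support)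
    (fun m => hFLAG (RI I) F n d (n - 2 * s) y hinjA hy hB1 hB2 hcn m
      ((Fin s ⊕ Fin (d + 1) ≃ Fin n) × Option (Fin s))
      (fun k => p k.1 k.2) (fun k => ⟨(hp k.1 k.2).1, by
        have h := (haev0 (Fin n) id (p k.1 k.2)).2 (hp k.1 k.2).2
        exact h⟩))
  have hBc : Bᶜ.card = s := by
    rw [Finset.card_compl, Fintype.card_fin]
    omega
  have hBcc : (Bᶜ)ᶜ.card = d + 1 := by rw [compl_compl, hB]
  obtain ⟨e, he⟩ : ∃ e : Fin s ⊕ Fin (d + 1) ≃ Fin n, ∀ b, e (Sum.inr b) ∈ B := by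
    refine ⟨finSumEquivOfFinset hBc hBcc, fun b => ?_⟩
    have h : finSumEquivOfFinset hBc hBcc (Sum.inr b) ∈ (Bᶜ)ᶜ :=
      Finset.orderEmbOfFin_mem (Bᶜ)ᶜ hBcc b
    rwa [Finset.mem_compl, Finset.mem_compl, not_not] at h
  have hw' : ∀ m : Fin (d + 1) → ℤ, m ≠ 0 → ∑ b, (m b : ℝ) * w (e (Sum.inr b)) ≠ 0 := by
    intro m hm
    let φ : Fin (d + 1) → {i // i ∈ B} := fun b => ⟨e (Sum.inr b), he b⟩
    have hφ : Function.Bijective φ := by
      rw [Fintype.bijective_iff_injective_and_card]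
      refine ⟨fun a b h => Sum.inr_injective (e.injective (congrArg Subtype.val h)), ?_⟩
      rw [Fintype.card_fin, Fintype.card_coe, hB]
    let ε := Equiv.ofBijective φ hφ
    have h := hBw (fun i => m (ε.symm i)) (fun h0 => hm (funext fun b => by
      have := congrFun h0 (ε b)
      simpa using this))
    rw [← Equiv.sum_comp ε] at h
    simp only [Equiv.symm_apply_apply] at h
    exact h
  exact hpw e w hw' (fun o => htw (e, o)) (fun σ hσ => hgeo w hwQ e σ hσ)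

/-- exponential points on all translates -/
theorem mainV8 (hCORE : S_CORE8) (hALG : S_ALG8) (hSUPP : S_SUPP8) (hTRD : S_TRD8)
    (hCOR : S_COR8) (hLIN : S_LIN8)
    (hSEP : Pool.Agent.K3h22.EX.S_SEP) (hFLAG : S_FLAG) (hCONE1 : S_CONE1) (hCONE2 : S_CONE2)
    {n s r : ℕ} (hn : n = s + r) (hs : 1 ≤ s) (hr : 1 ≤ r)
    (P : Ideal (MvPolynomial (Fin n ⊕ Fin n) ℂ)) (V : Set (Fin n ⊕ Fin n → ℂ)) (hP : P.IsPrime)
    (hV : V = {p | (∀ f ∈ P, eval p f = 0) ∧ ∀ j : Fin n, p (Sum.inr j) ≠ 0})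
    (hne : V.Nonempty)
    (hdim1 : ∃ K : Finset (Fin n ⊕ Fin n), K.card = n ∧ Indep V K)
    (hdim : ∀ K : Finset (Fin n ⊕ Fin n), K.card = n + 1 → ¬ Indep V K)
    (hX1 : ∃ K : Finset (Fin n), K.card = s ∧ ∀ G : MvPolynomial (Fin n) ℂ, G.vars ⊆ K →
      (∀ u ∈ V, eval (fun i => u (Sum.inl i)) G = 0) → G = 0)
    (hX2 : ∀ K : Finset (Fin n), K.card = s + 1 → ¬ ∀ G : MvPolynomial (Fin n) ℂ, G.vars ⊆ K →
      (∀ u ∈ V, eval (fun i => u (Sum.inl i)) G = 0) → G = 0)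
    (F : Fin r → MvPolynomial (Fin n) ℂ) (g : MvPolynomial (Fin n) ℂ)
    (hIF : ∀ x : Fin n → ℂ, (∀ i, eval x (F i) = 0) → eval x g ≠ 0 →
      ∀ G : MvPolynomial (Fin n) ℂ, (∀ u ∈ V, eval (fun i => u (Sum.inl i)) G = 0) →
        eval x G = 0)
    (L : Submodule ℂ (Fin n → ℂ)) (hL : Module.finrank ℂ L = s)
    (hre : ∀ c : Fin n → ℝ, c ≠ 0 → Module.finrank ℚ (Submodule.span ℚ (Set.range c)) ≤ 2 * s →
      ∃ v ∈ L, ∑ i, (c i : ℂ) * v i ≠ 0)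
    (hco : ∀ c : Fin n → ℂ, c ≠ 0 → Module.finrank ℚ (Submodule.span ℚ (Set.range c)) ≤ s →
      ∃ v ∈ L, ∑ i, c i * v i ≠ 0)
    (hF : ∀ i, ∀ z ∈ L, eval z (top (F i)) = 0)
    (hgr : ∃ z ∈ L, LinearIndependent ℂ fun i j => eval z (pderiv j (top (F i))))
    (hg : ∃ z ∈ L, eval z (top g) ≠ 0)
    (c : Fin n ⊕ Fin n → ℂ) (hc : ∀ i, c (Sum.inr i) ≠ 0)
    (H : MvPolynomial (Fin n ⊕ Fin n) ℂ)
    (hHV : ∃ u ∈ V, eval (Sum.elim (fun i => u (Sum.inl i) + c (Sum.inl i))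
      (fun i => c (Sum.inr i) * u (Sum.inr i))) H ≠ 0) :
    ∃ z : Fin n → ℂ, (∃ u ∈ V, (Sum.elim z fun i => Complex.exp (z i) :
      Fin n ⊕ Fin n → ℂ) = Sum.elim (fun i => u (Sum.inl i) + c (Sum.inl i))
        (fun i => c (Sum.inr i) * u (Sum.inr i))) ∧
      eval (Sum.elim z fun i => Complex.exp (z i)) H ≠ 0 := by
  classical
  obtain ⟨d, rfl⟩ : ∃ d, r = d + 1 := ⟨r - 1, by omega⟩
  obtain ⟨d1, d2, d3, d4, d5⟩ := Pool.Agent.K3h60.EX.t_DER n n P V hP hV hne id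
    Function.injective_id
  have d6 : ∀ G : MvPolynomial (Fin n ⊕ Fin n) ℂ, G ∈ P → ∀ u ∈ V, eval u G = 0 := by
    intro G hG u hu
    rw [hV] at hu
    exact hu.1 G hG
  have d7 : ∀ G : MvPolynomial (Fin n) ℂ, rename Sum.inl G ∈ P ↔
      ∀ u ∈ V, eval (fun i => u (Sum.inl i)) G = 0 := by
    intro G
    constructor
    · intro h u hu
      have := d6 _ h u hu
      rw [eval_rename] at this
      exact this
    · intro h
      apply d1
      intro u hu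
      rw [eval_rename]
      exact h u hu
  have hId : ∀ K : Finset (Fin n), K.card = s + 1 → ∃ G : MvPolynomial (Fin n) ℂ,
      rename Sum.inl G ∈ P ∧ G ≠ 0 ∧ G.vars ⊆ K := by
    intro K hK
    have h1 := hX2 K hK
    push Not at h1
    obtain ⟨G, h2, h3, h4⟩ := h1
    exact ⟨G, (d7 G).2 h3, h4, h2⟩
  have hfib := Pool.Agent.K3h23.UG.t_FIB6 n s (d + 1) hn P hP (by
      obtain ⟨K, hK, h1⟩ := hdim1
      exact ⟨K, hK, fun G hG hGP => h1 G hG (d6 G hGP)⟩) (by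
      intro K hK
      have h1 := hdim K hK
      unfold Indep at h1
      push Not at h1
      obtain ⟨G, h2, h3, h4⟩ := h1
      exact ⟨G, d1 G h3, h4, h2⟩) (by
      obtain ⟨K, hK, h1⟩ := hX1
      exact ⟨K, hK, fun G hG hGP => h1 G hG ((d7 G).1 hGP)⟩) hId
  obtain ⟨⟨Q, N, hQ, hQξ, hN⟩, hΨ⟩ := hLIN n s L hL hre hco
  refine Pool.Agent.K3h22.EX.transport P V hV (fun i => (X i : MvPolynomial (Fin n) ℂ))
    (fun c H hHP => ?_) c hc H hHV
  simp only [eval_X]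
  obtain ⟨I0, hI0⟩ : ∃ I0 : Ideal (MvPolynomial (Fin n) ℂ), I0 = P.comap
      ((rename (Sum.inl : Fin n → Fin n ⊕ Fin n) :
        MvPolynomial (Fin n) ℂ →ₐ[ℂ] MvPolynomial (Fin n ⊕ Fin n) ℂ) :
        MvPolynomial (Fin n) ℂ →+* MvPolynomial (Fin n ⊕ Fin n) ℂ) := ⟨_, rfl⟩
  have hm0 : ∀ G, G ∈ I0 ↔ rename Sum.inl G ∈ P := fun G => by
    rw [hI0]
    rfl
  have hp0 : I0.IsPrime := by
    rw [hI0]
    have := hP
    exact Ideal.comap_isPrime _ _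
  have hz0 : ∀ x : Fin n → ℂ, (∀ i, eval x (F i) = 0) → eval x g ≠ 0 → ∀ G ∈ I0, eval x G = 0 :=
    fun x hx hx' G hG => hIF x hx hx' G ((d7 G).1 ((hm0 G).1 hG))
  refine coreV8 hCORE hALG hSUPP hTRD hSEP hFLAG hCONE1 hCONE2 hn hs P hP d3
    {x : Fin n → ℂ | (∀ i, eval x (F i) = 0) ∧ eval x g ≠ 0} I0 hm0
    (fun x hx G hG => hz0 x hx.1 hx.2 G hG) ?_ hfib.2 Q N hQ hN ?_ c H hHP
  · obtain ⟨e, he⟩ := hfib.1
    exact ⟨fun b => e (Sum.inr b), fun a b hab => Sum.inr_injective (e.injective hab), he⟩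
  · intro w hw e σ hσ
    obtain ⟨ξ, hξ, hξw⟩ := hQξ w hw
    have h := geoL_of hCOR e F g L hL σ (fun z hz h => hΨ (d + 1) e σ z hz h) hF hgr hg I0 hp0
      (fun K hK => by
        obtain ⟨G, h1, h2, h3⟩ := hId K hK
        exact ⟨G, (hm0 G).2 h1, h2, h3⟩) hz0 ξ hξ (by
        intro j
        simp only [hξw]
        exact hσ j)
    simp only [hξw] at h
    exact h

end Pool.Agent.K3h22.E8
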