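import Pool.Agent.K3h53.UG.Core7
import Pool.Agent.K3h22.EX.Stm6

/-! E8 project (helper22, MP_209724_lc): varieties over arbitrary bases which contain a linear space
in general position at infinity, all dimensions; exact statements of the parts. -/

set_option autoImplicit false

namespace Pool.Agent.K3h22.E8

open MvPolynomial Filter Topology Metric Set Pool.Agent.K3h22.EX Pool.Agent.K3h53.UG

/-- the geometric property of the point set `Z` (compare `GeoZ`) for the slopes `σ` near one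
direction `ω` -/
def GeoL {n s r : ℕ} (e : Fin s ⊕ Fin r ≃ Fin n) (Z : Set (Fin n → ℂ))
    (I : Ideal (MvPolynomial (Fin n) ℂ)) (ω : Fin r → ℝ) (σ : Fin s → Fin r → ℚ) : Prop :=
  ∀ δ' : ℝ, 0 < δ' →
  ∀ T : Finset (MvPolynomial (Fin n) ℂ), (∀ G ∈ T, G ∉ I) → ∀ δ : ℝ, 0 < δ →
  ∃ θ : Fin r → ℝ, (∀ b, |θ b - ω b| < δ') ∧
  ∃ (cn : ℝ → Fin s → ℂ) (ε C R₀ : ℝ), (∀ R j, (cn R j).re = 0) ∧ 0 < ε ∧ 0 ≤ C ∧
  1 ≤ R₀ ∧ ∀ R : ℝ, R₀ ≤ R → ∃ ψ : (Fin s → ℂ) → Fin r → ℂ,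
    (∀ b, DifferentiableOn ℂ (fun l => ψ l b) (ball (cn R) (ε * R))) ∧
    ∀ l ∈ ball (cn R) (ε * R), xr e (fun j b => ((σ j b : ℚ) : ℝ)) l (ψ l) ∈ Z ∧
      (∀ b, |(ψ l b).re - R * θ b| ≤ δ * R) ∧
      ∀ G ∈ T, eval (xr e (fun j b => ((σ j b : ℚ) : ℝ)) l (ψ l)) G ≠ 0 ∧
        |Real.log ‖eval (xr e (fun j b => ((σ j b : ℚ) : ℝ)) l (ψ l)) G‖| ≤
          C * (1 + Real.log R)

/-- analytic core for given slopes `q` and a rationally independent direction `ω` -/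
def S_CORE8 : Prop := ∀ (n s r : ℕ) (e : Fin s ⊕ Fin r ≃ Fin n)
  (Zp : Set (Fin n → ℂ)) (I : Ideal (MvPolynomial (Fin n) ℂ))
  (ω : Fin r → ℝ), (∀ v : Fin r → ℤ, v ≠ 0 → ∑ b, (v b : ℝ) * ω b ≠ 0) →
  ∀ q : Fin s → Fin r → ℚ, GeoL e Zp I ω q →
  ∀ (A : Type) [CommRing A] (Φ : Fam7 r Zp I A) (c : Fin n → ℂ)
    (f U W : Polynomial A) (D Δ G0 : A) (N g : Fin s → Polynomial A),
    f.Monic → 0 < f.natDegree →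
    U * f + W * Polynomial.derivative f = Polynomial.C Δ →
    D ≠ 0 → Δ ≠ 0 → G0 ≠ 0 → (∀ j, (g j).coeff 0 ≠ 0) →
    (∀ (j : Fin s) (x : Zp) (Y : Fin r → ℂ) (t : ℂ),
      (f.map (Φ.ch x Y)).eval t = 0 → Φ.ch x Y D ≠ 0 →
      ((g j).map (Φ.ch x Y)).eval (yq (Φ.ch x Y) (N j) D t) = 0) →
  ∀ m : Fin s → ℕ,
    (∀ x y : Fin s → Fin r → ℝ, (∀ j, x j ∈ Esl6 (g j) Φ.sp) → (∀ j, y j ∈ Esl6 (g j) Φ.sp) →
      (∀ b, ∑ j, (m j : ℝ) * x j b = ∑ j, (m j : ℝ) * y j b) → x = y) →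
    (∀ j, (fun b => ((q j b : ℚ) : ℝ)) ∈ Esl6 (g j) Φ.sp) →
  ∀ qq : Polynomial A,
    (∀ (x : Zp) (Y : Fin r → ℂ) (t : ℂ), Φ.ch x Y D ≠ 0 → (qq.map (Φ.ch x Y)).eval t = 0 →
      ∃ u : ℂ, (f.map (Φ.ch x Y)).eval u = 0 ∧ t = ∏ j, yq (Φ.ch x Y) (N j) D u ^ m j) →
    (∃ k₁ ∈ qq.support, ∃ k₂ ∈ qq.support, k₁ < k₂ ∧ ∃ a₁ ∈ Φ.sp (qq.coeff k₁),
      ∃ a₂ ∈ Φ.sp (qq.coeff k₂),
      ∑ b, (a₁ b : ℝ) * ω b + k₁ * ∑ b, (∑ j, (m j : ℝ) * q j b) * ω b =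
        ∑ b, (a₂ b : ℝ) * ω b + k₂ * ∑ b, (∑ j, (m j : ℝ) * q j b) * ω b ∧
      ∀ l ∈ qq.support, ∀ a ∈ Φ.sp (qq.coeff l),
        ∑ b, (a b : ℝ) * ω b + l * ∑ b, (∑ j, (m j : ℝ) * q j b) * ω b ≤
        ∑ b, (a₁ b : ℝ) * ω b + k₁ * ∑ b, (∑ j, (m j : ℝ) * q j b) * ω b) →
  ∃ (x : Zp) (Y : Fin r → ℂ) (t : ℂ),
      (∀ b, Y b = Complex.exp (x.1 (e (Sum.inr b)) + c (e (Sum.inr b)))) ∧
      Φ.ch x Y G0 ≠ 0 ∧ Φ.ch x Y D ≠ 0 ∧ (f.map (Φ.ch x Y)).eval t = 0 ∧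
      ∀ j, yq (Φ.ch x Y) (N j) D t =
        Complex.exp (x.1 (e (Sum.inl j)) + c (e (Sum.inl j)))

/-- `S_ALG` with the relations of the `g i` and with resultants -/
def S_ALG8 : Prop := ∀ (n : ℕ) (P : Ideal (MvPolynomial (Fin n ⊕ Fin n) ℂ)), P.IsPrime →
  ∀ (A : Type) [CommRing A] [IsDomain A] [Algebra ℂ A]
  (em : A →ₐ[ℂ] MvPolynomial (Fin n ⊕ Fin n) ℂ ⧸ P), Function.Injective em →
  ∀ xA : Fin n → A, (∀ i, em (xA i) = Ideal.Quotient.mk P (X (Sum.inl i))) →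
  (∀ i, X (Sum.inr i) ∉ P) →
  (∀ i, ∃ g : Polynomial A, g ≠ 0 ∧
    g.eval₂ (em : A →+* _) (Ideal.Quotient.mk P (X (Sum.inr i))) = 0) →
  ∀ H : MvPolynomial (Fin n ⊕ Fin n) ℂ, H ∉ P →
  ∃ (f U W : Polynomial A) (D Δ g0 : A) (N g : Fin n → Polynomial A), f.Monic ∧
    0 < f.natDegree ∧ D ≠ 0 ∧ Δ ≠ 0 ∧ g0 ≠ 0 ∧
    U * f + W * Polynomial.derivative f = Polynomial.C Δ ∧ (∀ i, (g i).coeff 0 ≠ 0) ∧
    (∀ i, (g i).eval₂ (em : A →+* _) (Ideal.Quotient.mk P (X (Sum.inr i))) = 0) ∧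
    (∀ (s : ℕ) (J : Fin s → Fin n) (m : Fin s → ℕ), ∃ qq : Polynomial A, qq ≠ 0 ∧
      qq.eval₂ (em : A →+* _) (∏ a, Ideal.Quotient.mk P (X (Sum.inr (J a))) ^ m a) = 0 ∧
      ∀ χ : A →+* ℂ, χ D ≠ 0 → ∀ t : ℂ, (qq.map χ).eval t = 0 →
        ∃ u : ℂ, (f.map χ).eval u = 0 ∧ t = ∏ a, (((N (J a)).map χ).eval u / χ D) ^ m a) ∧
    ∀ (χ : A →ₐ[ℂ] ℂ) (t : ℂ) (Y : Fin n → ℂ),
      (∀ i, χ D * Y i = ((N i).map (χ : A →+* ℂ)).eval t) → χ D ≠ 0 →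
      (f.map (χ : A →+* ℂ)).eval t = 0 →
      (∀ G ∈ P, eval (Sum.elim (fun i => χ (xA i)) Y) G = 0) ∧
      (∀ i, ((g i).map (χ : A →+* ℂ)).eval (Y i) = 0) ∧
      (∀ (i : Fin n) (a : A), em a = Ideal.Quotient.mk P (X (Sum.inr i)) → Y i = χ a) ∧
      (χ g0 ≠ 0 → eval (Sum.elim (fun i => χ (xA i)) Y) H ≠ 0)

/-- good directions near a given point `ξ` of a linear space -/
def S_COR8 : Prop := ∀ (n s r : ℕ) (e : Fin s ⊕ Fin r ≃ Fin n)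
  (G : Fin r → MvPolynomial (Fin n) ℂ) (g : MvPolynomial (Fin n) ℂ)
  (L : Submodule ℂ (Fin n → ℂ)), Module.finrank ℂ L = s → ∀ σ : Fin s → Fin r → ℚ,
  (∀ z ∈ L, (∀ j, z (e (Sum.inl j)) = ∑ b, (σ j b : ℂ) * z (e (Sum.inr b))) → z = 0) →
  (∀ i, ∀ z ∈ L, eval z (G i) = 0) →
  (∃ z ∈ L, LinearIndependent ℂ fun i j => eval z (pderiv j (G i))) →
  (∃ z ∈ L, eval z g ≠ 0) → ∀ ξ ∈ L,
  (∀ j, (ξ (e (Sum.inl j))).re = ∑ b, (σ j b : ℝ) * (ξ (e (Sum.inr b))).re) →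
  ∀ U : Set (Fin r → ℝ), IsOpen U → (fun b => (ξ (e (Sum.inr b))).re) ∈ U →
  ∃ (lam : Fin s → ℂ) (θ : Fin r → ℂ), Good e G (fun j b => ((σ j b : ℚ) : ℝ)) lam θ ∧
    eval (xr e (fun j b => ((σ j b : ℚ) : ℝ)) lam θ) g ≠ 0 ∧ (fun b => (θ b).re) ∈ U

/-- two dominant monomials of a polynomial relation -/
def S_SUPP8 : Prop := ∀ (A : Type) [CommRing A] (n r : ℕ) (κ : Fin r → Fin n),
  Function.Injective κ →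
  (∀ (g : Polynomial (MvPolynomial (Fin r) A)) (μ : Fin n →₀ ℕ),
    (∀ b, μ (κ b) = 0) → μ ≠ 0 → g ≠ 0 →
    g.eval₂ (rename (R := A) κ).toRingHom (monomial μ 1) ≠ 0 ∧
    ∀ w : Fin n → ℝ, (∀ m : Fin r → ℤ, m ≠ 0 → ∑ b, (m b : ℝ) * w (κ b) ≠ 0) →
      Twice (g.eval₂ (rename (R := A) κ).toRingHom (monomial μ 1)).support w →
      ∃ j ∈ g.support, ∃ k ∈ g.support, j < k ∧ ∃ e ∈ (g.coeff j).support,
        ∃ e' ∈ (g.coeff k).support,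
        ∑ b, (e b : ℝ) * w (κ b) + j * pr μ w = ∑ b, (e' b : ℝ) * w (κ b) + k * pr μ w ∧
        ∀ l ∈ g.support, ∀ e'' ∈ (g.coeff l).support,
          ∑ b, (e'' b : ℝ) * w (κ b) + l * pr μ w ≤ ∑ b, (e b : ℝ) * w (κ b) + j * pr μ w) ∧
  ∀ (G : MvPolynomial (Fin r) A) (w : Fin n → ℝ),
    (∀ m : Fin r → ℤ, m ≠ 0 → ∑ b, (m b : ℝ) * w (κ b) ≠ 0) →
    ¬ Twice (rename (R := A) κ G).support w

/-- transcendence degree `r` -/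
def S_TRD8 : Prop := ∀ (A₀ K : Type) [CommRing A₀] [IsDomain A₀] [Field K] [Algebra A₀ K] (n r : ℕ)
  (y : Fin n → K), Function.Injective (algebraMap A₀ K) →
  (∃ κ : Fin r → Fin n, Function.Injective κ ∧
    ∀ g : MvPolynomial (Fin r) A₀, aeval (fun b => y (κ b)) g = 0 → g = 0) →
  (∀ κ : Fin r → Fin n, Function.Injective κ →
    (∀ g : MvPolynomial (Fin r) A₀, aeval (fun b => y (κ b)) g = 0 → g = 0) →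
    ∀ i, ∃ g : Polynomial (MvPolynomial (Fin r) A₀), g ≠ 0 ∧
      g.eval₂ (aeval (fun b => y (κ b)) : MvPolynomial (Fin r) A₀ →ₐ[A₀] K).toRingHom (y i) = 0) →
  (∃ B : Finset (Fin n), B.card = r ∧
    AlgebraicIndependent A₀ (fun b : {i // i ∈ B} => y b)) ∧
  ∀ B : Finset (Fin n), B.card = r + 1 →
    ¬ AlgebraicIndependent A₀ (fun b : {i // i ∈ B} => y b)

/-- linear spaces in general position -/
def S_LIN8 : Prop := ∀ (n s : ℕ) (L : Submodule ℂ (Fin n → ℂ)), Module.finrank ℂ L = s →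
  (∀ c : Fin n → ℝ, c ≠ 0 → Module.finrank ℚ (Submodule.span ℚ (Set.range c)) ≤ 2 * s →
    ∃ v ∈ L, ∑ i, (c i : ℂ) * v i ≠ 0) →
  (∀ c : Fin n → ℂ, c ≠ 0 → Module.finrank ℚ (Submodule.span ℚ (Set.range c)) ≤ s →
    ∃ v ∈ L, ∑ i, c i * v i ≠ 0) →
  (∃ (Q : Submodule ℝ (Fin n → ℝ)) (N : Fin (n - 2 * s) → Fin n → ℝ), GQ Q ∧
    (∀ w ∈ Q, ∃ ξ ∈ L, ∀ i, (ξ i).re = w i) ∧
    ∀ w, (∀ i, ∑ j, N i j * w j = 0) → w ∈ Q) ∧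
  ∀ (r : ℕ) (e : Fin s ⊕ Fin r ≃ Fin n) (σ : Fin s → Fin r → ℚ), ∀ z ∈ L,
    (∀ j, z (e (Sum.inl j)) = ∑ b, (σ j b : ℂ) * z (e (Sum.inr b))) → z = 0

end Pool.Agent.K3h22.E8
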